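import Mathlib

/-!
# Directed automorphisms of the 5-ary tree and their words
-/

namespace Pool.Agent.Q31.DS

open Equiv

/-- The alphabet. -/
abbrev X := Fin 5

/-- The group carrying the directed automorphisms. -/
abbrev V := ZMod 3 × ZMod 3

/-- Letters: a type (which of the two families) and an element of `V`. -/
abbrev Ltr := Bool × V

/-- The two three-cycles. -/
def cyc (t : Bool) : Perm X := if t then swap 2 3 * swap 3 4 else swap 0 1 * swap 1 2

/-- The point fixed by the three-cycle of the given type, along which the directed automorphism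
continues. -/
def pt (t : Bool) : X := if t then 1 else 3

/-- Powers of the three-cycles. -/
def r (t : Bool) (a : ZMod 3) : Perm X := cyc t ^ a.val

/-- The four functionals. -/
def ep (j : Fin 4) (v : V) : ZMod 3 :=
  match j with
  | 0 => v.1
  | 1 => v.2
  | 2 => v.1 + v.2
  | 3 => v.1 - v.2

lemma ep_add (j : Fin 4) (v w : V) : ep j (v + w) = ep j v + ep j w := by
  revert j v w; decide

lemma ep_zero (j : Fin 4) : ep j 0 = 0 := by
  revert j; decide

lemma r_add (t : Bool) (a b : ZMod 3) : r t (a + b) = r t a * r t b := by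
  revert t a b; decide

lemma r_zero (t : Bool) : r t 0 = 1 := by
  revert t; decide

lemma r_pt (t : Bool) (a : ZMod 3) : r t a (pt t) = pt t := by
  revert t a; decide

lemma r_eq_pt (t : Bool) (a : ZMod 3) (i : X) : r t a i = pt t ↔ i = pt t := by
  revert t a i; decide

lemma sign_r (t : Bool) (a : ZMod 3) : Perm.sign (r t a) = 1 := by
  revert t a; decide

/-- The root permutation of a letter at level `j`. -/
def rp (j : Fin 4) (s : Ltr) : Perm X := r s.1 (ep j s.2)

lemma rp_add (j : Fin 4) (t : Bool) (v w : V) : rp j (t, v + w) = rp j (t, v) * rp j (t, w) := by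
  simp only [rp, ep_add, r_add]

lemma rp_of_ep' (j : Fin 4) (s : Ltr) (h : ep j s.2 = 0) : rp j s = 1 := by
  rw [rp, h, r_zero]

lemma rp_zero (j : Fin 4) (t : Bool) : rp j (t, 0) = 1 := by
  simp only [rp, ep_zero, r_zero]

/-- The directed automorphism. -/
def act (t : Bool) (v : V) : Fin 4 → List X → List X
  | _, [] => []
  | j, i :: u => rp j (t, v) i :: (if i = pt t then act t v (j + 1) u else u)

@[simp] lemma act_nil (t : Bool) (v : V) (j : Fin 4) : act t v j [] = [] := by simp [act]

lemma act_cons (t : Bool) (v : V) (j : Fin 4) (i : X) (u : List X) :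
    act t v j (i :: u) = rp j (t, v) i :: (if i = pt t then act t v (j + 1) u else u) := by
  simp [act]

lemma act_add (t : Bool) (v w : V) (u : List X) : ∀ j : Fin 4,
    act t (v + w) j u = act t v j (act t w j u) := by
  induction u with
  | nil => intro j; simp
  | cons i u ih =>
    intro j
    rw [act_cons, act_cons, act_cons, rp_add]
    have h : rp j (t, w) i = pt t ↔ i = pt t := r_eq_pt _ _ _
    by_cases hi : i = pt t
    · rw [if_pos hi, if_pos hi, if_pos (h.2 hi), ih]; rfl
    · rw [if_neg hi, if_neg hi, if_neg (fun hh => hi (h.1 hh))]; rfl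

lemma act_zero (t : Bool) (u : List X) : ∀ j : Fin 4, act t 0 j u = u := by
  induction u with
  | nil => intro j; simp
  | cons i u ih =>
    intro j
    rw [act_cons, rp_zero]
    by_cases hi : i = pt t
    · rw [if_pos hi, ih]; rfl
    · rw [if_neg hi]; rfl

/-- The directed automorphism as a permutation of the vertices. -/
def actE (j : Fin 4) (s : Ltr) : Perm (List X) where
  toFun := act s.1 s.2 j
  invFun := act s.1 (-s.2) j
  left_inv u := by rw [← act_add, neg_add_cancel, act_zero]
  right_inv u := by rw [← act_add, add_neg_cancel, act_zero]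

lemma actE_apply (j : Fin 4) (s : Ltr) (u : List X) : actE j s u = act s.1 s.2 j u := rfl

lemma actE_nil (j : Fin 4) (s : Ltr) : actE j s [] = [] := by
  rw [actE_apply, act_nil]

lemma actE_cons (j : Fin 4) (s : Ltr) (i : X) (u : List X) :
    actE j s (i :: u) = rp j s i :: (if i = pt s.1 then actE (j + 1) s u else u) := by
  rw [actE_apply, act_cons]; rfl

lemma actE_add (j : Fin 4) (t : Bool) (v w : V) :
    actE j (t, v + w) = actE j (t, v) * actE j (t, w) := by
  ext1 u
  rw [Perm.mul_apply]
  exact act_add t v w u j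

lemma actE_zero (j : Fin 4) (t : Bool) : actE j (t, 0) = 1 := by
  ext1 u
  exact act_zero t u j

lemma actE_inv (j : Fin 4) (t : Bool) (v : V) : (actE j (t, v))⁻¹ = actE j (t, -v) := by
  rw [inv_eq_iff_mul_eq_one, ← actE_add, add_neg_cancel, actE_zero]

/-- Evaluation of a word at level `j`. -/
def eval (j : Fin 4) (w : List Ltr) : Perm (List X) := (w.map (actE j)).prod

@[simp] lemma eval_nil (j : Fin 4) : eval j [] = 1 := rfl

lemma eval_cons (j : Fin 4) (s : Ltr) (w : List Ltr) : eval j (s :: w) = actE j s * eval j w := by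
  simp [eval]

lemma eval_append (j : Fin 4) (w w' : List Ltr) : eval j (w ++ w') = eval j w * eval j w' := by
  simp [eval]

/-- The root permutation of a word. -/
def rw' (j : Fin 4) (w : List Ltr) : Perm X := (w.map (rp j)).prod

@[simp] lemma rw'_nil (j : Fin 4) : rw' j [] = 1 := rfl

lemma rw'_cons (j : Fin 4) (s : Ltr) (w : List Ltr) : rw' j (s :: w) = rp j s * rw' j w := by
  simp [rw']

/-- The section of a word at a vertex of the first level. -/
def sec (j : Fin 4) : List Ltr → X → List Ltr
  | [], _ => []
  | s :: l, i => if rw' j l i = pt s.1 then s :: sec j l i else sec j l i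

@[simp] lemma sec_nil (j : Fin 4) (i : X) : sec j [] i = [] := rfl

lemma sec_cons (j : Fin 4) (s : Ltr) (l : List Ltr) (i : X) :
    sec j (s :: l) i = if rw' j l i = pt s.1 then s :: sec j l i else sec j l i := rfl

lemma eval_apply_nil (j : Fin 4) (w : List Ltr) : eval j w [] = [] := by
  induction w with
  | nil => rfl
  | cons s w ih => rw [eval_cons, Perm.mul_apply, ih, actE_nil]

lemma eval_apply_cons (j : Fin 4) (w : List Ltr) (i : X) (u : List X) :
    eval j w (i :: u) = rw' j w i :: eval (j + 1) (sec j w i) u := by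
  induction w with
  | nil => rfl
  | cons s w ih =>
    rw [eval_cons, Perm.mul_apply, ih, actE_cons, rw'_cons, sec_cons, Perm.mul_apply]
    by_cases h : rw' j w i = pt s.1
    · rw [if_pos h, if_pos h, eval_cons, Perm.mul_apply]
    · rw [if_neg h, if_neg h]

/-- The group at level `j`. -/
def G (j : Fin 4) : Subgroup (Perm (List X)) where
  carrier := {g | ∃ w, eval j w = g}
  mul_mem' := by
    rintro _ _ ⟨w, rfl⟩ ⟨w', rfl⟩
    exact ⟨w ++ w', eval_append j w w'⟩
  one_mem' := ⟨[], rfl⟩
  inv_mem' := by
    rintro _ ⟨w, rfl⟩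
    induction w with
    | nil => exact ⟨[], by simp⟩
    | cons s w ih =>
      obtain ⟨w', hw'⟩ := ih
      refine ⟨w' ++ [(s.1, -s.2)], ?_⟩
      rw [eval_append, hw', eval_cons, eval_nil, mul_one, ← actE_inv, eval_cons, mul_inv_rev]

lemma mem_G {j : Fin 4} {g : Perm (List X)} : g ∈ G j ↔ ∃ w, eval j w = g := Iff.rfl

lemma eval_mem (j : Fin 4) (w : List Ltr) : eval j w ∈ G j := ⟨w, rfl⟩

lemma actE_mem (j : Fin 4) (s : Ltr) : actE j s ∈ G j := ⟨[s], by simp [eval]⟩

end Pool.Agent.Q31.DS
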