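import Pool.Agent.Q31.DS.Basic

/-!
# Contraction
-/

namespace Pool.Agent.Q31.DS

open Equiv

/-- Weight of a letter: `7` plus the number of levels until its root permutation is trivial. -/
def W (j : Fin 4) (v : V) : ℕ :=
  if ep j v = 0 then 7 else if ep (j + 1) v = 0 then 8 else if ep (j + 2) v = 0 then 9 else 10

lemma W_step (j : Fin 4) (v : V) (hv : v ≠ 0) :
    W (j + 1) v + 1 = W j v + 4 * (if ep j v = 0 then 1 else 0) := by
  revert j v; decide

lemma W_le (j : Fin 4) (v : V) : W j v ≤ 10 := by
  revert j v; decide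

lemma le_W (j : Fin 4) (v : V) : 7 ≤ W j v := by
  revert j v; decide

/-- Weight of a word. -/
def wt (j : Fin 4) (w : List Ltr) : ℕ := (w.map (fun s => W j s.2)).sum

@[simp] lemma wt_nil (j : Fin 4) : wt j [] = 0 := rfl

lemma wt_cons (j : Fin 4) (s : Ltr) (w : List Ltr) : wt j (s :: w) = W j s.2 + wt j w := by
  simp [wt]

lemma wt_append (j : Fin 4) (w w' : List Ltr) : wt j (w ++ w') = wt j w + wt j w' := by
  simp [wt]

/-- All letters are nonzero. -/
def NZ (w : List Ltr) : Prop := ∀ s ∈ w, s.2 ≠ 0

lemma NZ_nil : NZ [] := by simp [NZ]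

lemma NZ_cons {s : Ltr} {w : List Ltr} : NZ (s :: w) ↔ s.2 ≠ 0 ∧ NZ w := by
  simp [NZ]

lemma NZ_append {w w' : List Ltr} (h : NZ w) (h' : NZ w') : NZ (w ++ w') := by
  intro s hs
  rcases List.mem_append.1 hs with h1 | h1
  · exact h s h1
  · exact h' s h1

lemma exists_NZ {j : Fin 4} {g : Perm (List X)} (hg : g ∈ G j) :
    ∃ w, NZ w ∧ eval j w = g := by
  obtain ⟨w, rfl⟩ := hg
  induction w with
  | nil => exact ⟨[], NZ_nil, rfl⟩
  | cons s w ih =>
    obtain ⟨w', hw', he⟩ := ih
    by_cases hs : s.2 = 0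
    · refine ⟨w', hw', ?_⟩
      rw [eval_cons, he]
      have : actE j s = 1 := by
        have h1 : s = (s.1, (0 : V)) := by rw [← hs]
        rw [h1]; exact actE_zero j s.1
      rw [this, one_mul]
    · exact ⟨s :: w', NZ_cons.2 ⟨hs, hw'⟩, by rw [eval_cons, eval_cons, he]⟩

/-- The weight norm. -/
noncomputable def L (j : Fin 4) (g : Perm (List X)) : ℕ :=
  sInf {n | ∃ w, NZ w ∧ eval j w = g ∧ wt j w = n}

lemma L_le {j : Fin 4} {w : List Ltr} (h : NZ w) : L j (eval j w) ≤ wt j w :=
  Nat.sInf_le ⟨w, h, rfl, rfl⟩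

lemma exists_min {j : Fin 4} {g : Perm (List X)} (hg : g ∈ G j) :
    ∃ w, NZ w ∧ eval j w = g ∧ wt j w = L j g := by
  obtain ⟨w, hw, he⟩ := exists_NZ hg
  have : (L j g) ∈ {n | ∃ w, NZ w ∧ eval j w = g ∧ wt j w = n} :=
    Nat.sInf_mem ⟨wt j w, w, hw, he, rfl⟩
  exact this

lemma L_mul_le {j : Fin 4} {g h : Perm (List X)} (hg : g ∈ G j) (hh : h ∈ G j) :
    L j (g * h) ≤ L j g + L j h := by
  obtain ⟨w, hw, he, hL⟩ := exists_min hg
  obtain ⟨w', hw', he', hL'⟩ := exists_min hh
  rw [← hL, ← hL', ← wt_append, ← he, ← he', ← eval_append]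
  exact L_le (NZ_append hw hw')

lemma L_one (j : Fin 4) : L j 1 = 0 := by
  have := L_le (j := j) NZ_nil
  simpa using this

lemma L_act_le {j : Fin 4} {t : Bool} {v : V} (hv : v ≠ 0) : L j (actE j (t, v)) ≤ W j v := by
  have := L_le (j := j) (w := [(t, v)]) (NZ_cons.2 ⟨hv, NZ_nil⟩)
  simpa [eval, wt] using this

lemma L_act_le' (j : Fin 4) (t : Bool) (v : V) : L j (actE j (t, v)) ≤ 10 := by
  by_cases hv : v = 0
  · rw [hv, actE_zero, L_one]; omega
  · exact (L_act_le hv).trans (W_le j v)

/-- Whether the head of the word has type `t`. -/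
def hp (t : Bool) : List Ltr → ℕ
  | [] => 0
  | s :: _ => if t = s.1 then 1 else 0

/-- The number of adjacent pairs of letters of the same type. -/
def pairs : List Ltr → ℕ
  | [] => 0
  | s :: l => hp s.1 l + pairs l

@[simp] lemma hp_nil (t : Bool) : hp t [] = 0 := rfl

lemma hp_cons (t : Bool) (s : Ltr) (l : List Ltr) : hp t (s :: l) = if t = s.1 then 1 else 0 := rfl

@[simp] lemma pairs_nil : pairs [] = 0 := rfl

lemma pairs_cons (s : Ltr) (l : List Ltr) : pairs (s :: l) = hp s.1 l + pairs l := rfl

lemma merge (j : Fin 4) (l : List Ltr) (hl : NZ l) :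
    (∀ t v, L j (actE j (t, v) * eval j l) + 4 * (hp t l + pairs l) ≤ 10 + wt j l) ∧
    (∀ t v, v ≠ 0 → L j (actE j (t, v) * eval j l) + 4 * (hp t l + pairs l) ≤ W j v + wt j l) := by
  induction l with
  | nil =>
    refine ⟨fun t v => ?_, fun t v hv => ?_⟩
    · have := L_act_le' j t v
      simpa using this
    · have := L_act_le (j := j) (t := t) hv
      simpa using this
  | cons s l ih =>
    obtain ⟨hs, hl'⟩ := NZ_cons.1 hl
    obtain ⟨P, R⟩ := ih hl'
    have key : ∀ t v, t = s.1 → actE j (t, v) * eval j (s :: l) =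
        actE j (t, v + s.2) * eval j l := by
      intro t v ht
      rw [eval_cons, ← mul_assoc, actE_add]
      congr 2
      rw [ht]
    have hmem : eval j (s :: l) ∈ G j := eval_mem _ _
    have hR := R s.1 s.2 hs
    have hev : eval j (s :: l) = actE j (s.1, s.2) * eval j l := eval_cons j s l
    rw [← hev] at hR
    have hW := le_W j s.2
    refine ⟨fun t v => ?_, fun t v hv => ?_⟩
    · rw [hp_cons, pairs_cons, wt_cons]
      by_cases ht : t = s.1
      · rw [if_pos ht, key t v ht]
        have := P t (v + s.2)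
        rw [← ht]
        omega
      · rw [if_neg ht]
        have h1 := L_mul_le (actE_mem j (t, v)) hmem
        have h2 := L_act_le' j t v
        omega
    · rw [hp_cons, pairs_cons, wt_cons]
      have hWv := le_W j v
      by_cases ht : t = s.1
      · rw [if_pos ht, key t v ht]
        have := P t (v + s.2)
        rw [← ht]
        omega
      · rw [if_neg ht]
        have h1 := L_mul_le (actE_mem j (t, v)) hmem
        have h2 := L_act_le (j := j) (t := t) hv
        omega

lemma L_add_pairs (j : Fin 4) (l : List Ltr) (hl : NZ l) :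
    L j (eval j l) + 4 * pairs l ≤ wt j l := by
  cases l with
  | nil => simp [L_one]
  | cons s l =>
    obtain ⟨hs, hl'⟩ := NZ_cons.1 hl
    have := (merge j l hl').2 s.1 s.2 hs
    rw [pairs_cons, wt_cons, eval_cons]
    exact this

/-- The number of letters with trivial root permutation. -/
def ina (j : Fin 4) (w : List Ltr) : ℕ := (w.map (fun s => if ep j s.2 = 0 then 1 else 0)).sum

@[simp] lemma ina_nil (j : Fin 4) : ina j [] = 0 := rfl

lemma ina_cons (j : Fin 4) (s : Ltr) (w : List Ltr) :
    ina j (s :: w) = (if ep j s.2 = 0 then 1 else 0) + ina j w := by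
  simp [ina]

lemma wt_succ (j : Fin 4) (w : List Ltr) (hw : NZ w) :
    wt (j + 1) w + w.length = wt j w + 4 * ina j w := by
  induction w with
  | nil => simp
  | cons s w ih =>
    obtain ⟨hs, hw'⟩ := NZ_cons.1 hw
    have h1 := ih hw'
    have h2 := W_step j s.2 hs
    rw [wt_cons, wt_cons, ina_cons, List.length_cons]
    omega

lemma wt_le (j : Fin 4) (w : List Ltr) : wt j w ≤ 10 * w.length := by
  induction w with
  | nil => simp
  | cons s w ih =>
    rw [wt_cons, List.length_cons]
    have := W_le j s.2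
    omega

lemma le_wt (j : Fin 4) (w : List Ltr) : w.length ≤ wt j w := by
  induction w with
  | nil => simp
  | cons s w ih =>
    rw [wt_cons, List.length_cons]
    have := le_W j s.2
    omega

lemma sum_ind (σ : Perm X) (p : X) (f : X → ℕ) :
    ∑ i, (if σ i = p then f i else 0) = f (σ⁻¹ p) := by
  have : ∀ i, (σ i = p) ↔ (i = σ⁻¹ p) := fun i => by
    rw [Perm.eq_inv_iff_eq]
  simp only [this]
  simp

lemma sum_wt_sec (j k : Fin 4) (w : List Ltr) : ∑ i, wt k (sec j w i) = wt k w := by
  induction w with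
  | nil => simp
  | cons s w ih =>
    have h1 : ∀ i, wt k (sec j (s :: w) i) =
        (if rw' j w i = pt s.1 then W k s.2 else 0) + wt k (sec j w i) := by
      intro i
      rw [sec_cons]
      split_ifs <;> simp [wt_cons]
    simp only [h1]
    rw [Finset.sum_add_distrib, ih, sum_ind (rw' j w) (pt s.1) (fun _ => W k s.2), wt_cons]

/-- Total number of pairs in the sections. -/
def PP (j : Fin 4) (w : List Ltr) : ℕ := ∑ i, pairs (sec j w i)

lemma PP_cons (j : Fin 4) (s : Ltr) (w : List Ltr) :
    PP j (s :: w) = hp s.1 (sec j w ((rw' j w)⁻¹ (pt s.1))) + PP j w := by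
  have h1 : ∀ i, pairs (sec j (s :: w) i) =
      (if rw' j w i = pt s.1 then hp s.1 (sec j w i) else 0) + pairs (sec j w i) := by
    intro i
    rw [sec_cons]
    split_ifs <;> simp [pairs_cons]
  unfold PP
  simp only [h1]
  rw [Finset.sum_add_distrib, sum_ind (rw' j w) (pt s.1) (fun i => hp s.1 (sec j w i))]

lemma rp_of_ep (j : Fin 4) (s : Ltr) (h : ep j s.2 = 0) : rp j s = 1 := by
  rw [rp, h, r_zero]

lemma pt_ne {t t' : Bool} (h : t ≠ t') : pt t ≠ pt t' := by
  revert t t'; decide

lemma hp_key (j : Fin 4) (t : Bool) (m s' : Ltr) (l : List Ltr) (hm : ep j m.2 = 0)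
    (h1 : t ≠ m.1) (h2 : t = s'.1) :
    hp t (sec j (m :: s' :: l) ((rw' j (m :: s' :: l))⁻¹ (pt t))) = 1 := by
  set i := (rw' j (m :: s' :: l))⁻¹ (pt t) with hi
  have h3 : rw' j (s' :: l) i = pt t := by
    have : rw' j (m :: s' :: l) i = pt t := by rw [hi]; simp
    rwa [rw'_cons, rp_of_ep j m hm, one_mul] at this
  have h4 : rw' j l i = pt s'.1 := by
    rw [rw'_cons, Perm.mul_apply, h2] at h3
    exact (r_eq_pt _ _ _).1 h3
  rw [sec_cons, if_neg (by rw [h3]; exact pt_ne h1), sec_cons, if_pos h4, hp_cons, if_pos h2]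

lemma ina_le (j : Fin 4) (w : List Ltr) (hw : pairs w = 0) : ina j w.tail ≤ PP j w + 1 := by
  induction w with
  | nil => simp
  | cons s w ih =>
    rw [pairs_cons] at hw
    have hw0 : pairs w = 0 := by omega
    have h1 := ih hw0
    rw [List.tail_cons, PP_cons]
    cases w with
    | nil => simp
    | cons m w =>
      rw [List.tail_cons] at h1
      rw [ina_cons]
      by_cases hm : ep j m.2 = 0
      · rw [if_pos hm]
        cases w with
        | nil => simp
        | cons s' w =>
          have hsm : s.1 ≠ m.1 := by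
            intro hh
            rw [hp_cons, if_pos hh] at hw
            omega
          have hms : m.1 ≠ s'.1 := by
            intro hh
            rw [pairs_cons, hp_cons, if_pos hh] at hw0
            omega
          have hss : s.1 = s'.1 := by
            revert hsm hms
            generalize s.1 = a
            generalize m.1 = b
            generalize s'.1 = c
            revert a b c
            decide
          rw [hp_key j s.1 m s' w hm hsm hss]
          omega
      · rw [if_neg hm]
        omega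

lemma sec_sublist (j : Fin 4) (w : List Ltr) (i : X) : (sec j w i).Sublist w := by
  induction w with
  | nil => simp
  | cons s w ih =>
    rw [sec_cons]
    split_ifs
    · exact ih.cons_cons s
    · exact ih.cons s

lemma NZ_sec {j : Fin 4} {w : List Ltr} (hw : NZ w) (i : X) : NZ (sec j w i) :=
  fun s hs => hw s ((sec_sublist j w i).subset hs)

/-- The contraction inequality. -/
theorem contraction (j : Fin 4) (g : Perm (List X)) (w : List Ltr) (hw : NZ w)
    (he : eval j w = g) (hL : wt j w = L j g) :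
    10 * ∑ i, L (j + 1) (eval (j + 1) (sec j w i)) ≤ 9 * L j g + 80 := by
  have hpairs : pairs w = 0 := by
    have := L_add_pairs j w hw
    rw [he, ← hL] at this
    omega
  have h1 : ∑ i, L (j + 1) (eval (j + 1) (sec j w i)) + 4 * PP j w ≤ wt (j + 1) w := by
    rw [← sum_wt_sec j (j + 1) w, PP, Finset.mul_sum, ← Finset.sum_add_distrib]
    exact Finset.sum_le_sum fun i _ => L_add_pairs (j + 1) _ (NZ_sec hw i)
  have h2 := wt_succ j w hw
  have h3 : ina j w ≤ PP j w + 2 := by
    have h4 := ina_le j w hpairs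
    cases w with
    | nil => simp
    | cons s w =>
      rw [ina_cons]
      rw [List.tail_cons] at h4
      split_ifs <;> omega
  have h5 := wt_le j w
  omega

end Pool.Agent.Q31.DS
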