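import Mathlib

/-!
# The infinite iterated wreath product of the alternating group of degree five, and growth

The rooted tree has as vertices the finite words over `Fin 5`; the children of `u` are the words
`u ++ [i]`.
-/

namespace Pool.Agent.Q31.DS

open Equiv

/-- `g` is an automorphism of the rooted tree of words over `Fin 5` all of whose local
permutations `σ u` are even: `g` fixes the root and sends the child `u ++ [i]` of `u` to the child
`g u ++ [σ u i]` of `g u`. -/
def IsEvenAut (g : Perm (List (Fin 5))) : Prop :=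
  ∃ σ : List (Fin 5) → Perm (Fin 5), (∀ u, Perm.sign (σ u) = 1) ∧ g [] = [] ∧
    ∀ u i, g (u ++ [i]) = g u ++ [σ u i]

/-- The group `W` of all automorphisms of the tree all of whose local permutations lie in the
alternating group of degree five. -/
def evenAut : Subgroup (Perm (List (Fin 5))) where
  carrier := {g | IsEvenAut g}
  mul_mem' := by
    rintro g h ⟨σ, hσ, hg, hg'⟩ ⟨τ, hτ, hh, hh'⟩
    refine ⟨fun u => σ (h u) * τ u, fun u => ?_, ?_, fun u i => ?_⟩
    · rw [map_mul, hσ, hτ, mul_one]
    · rw [Perm.mul_apply, hh, hg]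
    · rw [Perm.mul_apply, hh', hg']; rfl
  one_mem' := ⟨fun _ => 1, fun _ => map_one _, rfl, fun _ _ => rfl⟩
  inv_mem' := by
    rintro g ⟨σ, hσ, hg, hg'⟩
    refine ⟨fun u => (σ (g⁻¹ u))⁻¹, fun u => ?_, ?_, fun u i => ?_⟩
    · rw [map_inv, hσ, inv_one]
    · rw [Perm.inv_eq_iff_eq, hg]
    · rw [Perm.inv_eq_iff_eq, hg']; simp

/-- A subgroup is dense in `W` when it induces the same permutations of every level of the tree
as `W` itself. -/
def IsDenseInEvenAut (Γ : Subgroup (Perm (List (Fin 5)))) : Prop :=
  ∀ n : ℕ, ∀ w ∈ evenAut, ∃ γ ∈ Γ, ∀ u : List (Fin 5), u.length = n → γ u = w u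

/-- The ball of radius `r` with respect to `S`: all products of at most `r` elements of
`S ∪ S⁻¹`. -/
def ball {H : Type*} [Group H] (S : Finset H) (r : ℕ) : Set H :=
  {g | ∃ l : List H, l.length ≤ r ∧ (∀ a ∈ l, a ∈ S ∨ a⁻¹ ∈ S) ∧ l.prod = g}

/-- The growth function. -/
noncomputable def growth {H : Type*} [Group H] (S : Finset H) (r : ℕ) : ℕ := (ball S r).ncard

end Pool.Agent.Q31.DS
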