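import Pool.Agent.Q31.DS.Tree

/-!
# Density
-/

namespace Pool.Agent.Q31.DS

open Equiv
open scoped commutatorElement

/-- Local permutations of the directed automorphisms. -/
def loc (t : Bool) (v : V) : Fin 4 → List X → Perm X
  | j, [] => rp j (t, v)
  | j, i :: u => if i = pt t then loc t v (j + 1) u else 1

lemma loc_cons (t : Bool) (v : V) (j : Fin 4) (i : X) (u : List X) :
    loc t v j (i :: u) = if i = pt t then loc t v (j + 1) u else 1 := by
  simp [loc]

lemma actE_even (j : Fin 4) (s : Ltr) : actE j s ∈ evenAut := by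
  obtain ⟨t, v⟩ := s
  refine ⟨loc t v j, fun u => ?_, actE_nil j _, fun u k => ?_⟩
  · induction u generalizing j with
    | nil => exact sign_r _ _
    | cons i u ih =>
      rw [loc_cons]
      split_ifs
      · exact ih (j + 1)
      · exact map_one _
  · induction u generalizing j with
    | nil =>
      rw [List.nil_append, actE_cons, actE_nil]
      split_ifs
      · rw [actE_nil]; rfl
      · rfl
    | cons i u ih =>
      rw [List.cons_append, actE_cons, actE_cons, loc_cons]
      split_ifs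
      · rw [ih (j + 1)]; rfl
      · rfl

lemma G_le (j : Fin 4) : G j ≤ evenAut := by
  rintro _ ⟨w, rfl⟩
  induction w with
  | nil => exact evenAut.one_mem
  | cons s w ih => rw [eval_cons]; exact evenAut.mul_mem (actE_even j s) ih

lemma actE_eq_wr (j : Fin 4) (s : Ltr) :
    actE j s = wr (rp j s) (fun i => if i = pt s.1 then actE (j + 1) s else 1) := by
  ext1 u
  cases u with
  | nil => rw [actE_nil]; rfl
  | cons i u =>
    rw [actE_cons, wr_cons]
    split_ifs <;> rfl

/-- Root permutations of the elements of a subgroup. -/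
def roots (A : Subgroup (Perm (List X))) : Subgroup (Perm X) where
  carrier := {σ | ∃ f, wr σ f ∈ A}
  mul_mem' := by
    rintro σ τ ⟨f, hf⟩ ⟨g, hg⟩
    exact ⟨_, by rw [← wr_mul]; exact A.mul_mem hf hg⟩
  one_mem' := ⟨1, by rw [wr_one]; exact A.one_mem⟩
  inv_mem' := by
    rintro σ ⟨f, hf⟩
    exact ⟨_, by rw [← wr_inv]; exact A.inv_mem hf⟩

lemma mem_roots {A : Subgroup (Perm (List X))} {σ : Perm X} :
    σ ∈ roots A ↔ ∃ f, wr σ f ∈ A := Iff.rfl

lemma gen5 (H : Subgroup (Perm X)) (h0 : cyc false ∈ H) (h1 : cyc true ∈ H) :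
    alternatingGroup X ≤ H := by
  have e1 : ∀ x : X, ∃ h : H, h • (0 : X) = x := by
    intro x
    have h00 : cyc false * cyc false ∈ H := H.mul_mem h0 h0
    have h100 : cyc true * (cyc false * cyc false) ∈ H := H.mul_mem h1 h00
    have h1100 : cyc true * (cyc true * (cyc false * cyc false)) ∈ H := H.mul_mem h1 h100
    fin_cases x
    · exact ⟨1, one_smul _ _⟩
    · exact ⟨⟨_, h0⟩, by change cyc false 0 = 1; decide⟩
    · exact ⟨⟨_, h00⟩, by change (cyc false * cyc false) 0 = 2; decide⟩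
    · exact ⟨⟨_, h100⟩, by change (cyc true * (cyc false * cyc false)) 0 = 3; decide⟩
    · exact ⟨⟨_, h1100⟩, by
        change (cyc true * (cyc true * (cyc false * cyc false))) 0 = 4; decide⟩
  have e2 : MulAction.IsPretransitive H X := by
    refine ⟨fun x y => ?_⟩
    obtain ⟨a, ha⟩ := e1 x
    obtain ⟨b, hb⟩ := e1 y
    refine ⟨b * a⁻¹, ?_⟩
    rw [← ha, ← hb, mul_smul, inv_smul_smul]
  have e3 : MulAction.IsPreprimitive H X :=
    MulAction.IsPreprimitive.of_prime_card (by simp; norm_num)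
  have e4 : (cyc false).IsThreeCycle := by
    rw [← card_support_eq_three_iff]
    decide
  exact Perm.alternatingGroup_le_of_isPreprimitive_of_isThreeCycle_mem e3 e4 h0

lemma exists_ep (j : Fin 4) (a : ZMod 3) : ∃ v : V, ep j v = a := by
  revert j a; decide

lemma exists_ina (j : Fin 4) : ∃ v : V, ep j v = 0 ∧ ep (j + 1) v = 1 := by
  revert j; decide

lemma r_one (t : Bool) : r t 1 = cyc t := by
  revert t; decide

lemma roots_G (j : Fin 4) : alternatingGroup X ≤ roots (G j) := by
  have h : ∀ t, cyc t ∈ roots (G j) := by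
    intro t
    obtain ⟨v, hv⟩ := exists_ep j 1
    have h1 := actE_mem j (t, v)
    rw [actE_eq_wr] at h1
    have h2 : rp j (t, v) = cyc t := by rw [rp, hv, r_one]
    rw [h2] at h1
    exact ⟨_, h1⟩
  exact gen5 _ (h false) (h true)

/-- Conjugation of an element acting below `i`. -/
lemma conj_at {g h : Perm (List X)} {i i' : X} (hg : g [] = [])
    (H : ∀ u, g (i :: u) = i' :: h u) (k : Perm (List X)) :
    g * atH i k * g⁻¹ = atH i' (h * k * h⁻¹) := by
  rw [mul_inv_eq_iff_eq_mul]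
  ext1 u
  rw [Perm.mul_apply, Perm.mul_apply]
  cases u with
  | nil => rw [atH_nil, hg, atH_nil]
  | cons m u =>
    by_cases hm : m = i
    · subst hm
      rw [atH_same, H, H, atH_same]
      simp
    · rw [atH_ne hm]
      have h1 : g (m :: u) ≠ [] := by
        intro h2
        rw [← hg] at h2
        exact absurd (g.injective h2) (by simp)
      obtain ⟨m', u', hmu⟩ := List.exists_cons_of_ne_nil h1
      rw [hmu]
      have h3 : m' ≠ i' := by
        intro h4
        rw [h4] at hmu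
        have h5 : g (i :: h⁻¹ u') = i' :: u' := by rw [H]; simp
        rw [← h5] at hmu
        exact hm (List.cons.inj (g.injective hmu)).1
      rw [atH_ne h3]

/-- Elements moving the vertex `3` of the first level with trivial section. -/
lemma trans (j : Fin 4) (i : X) : ∃ g ∈ G j, ∀ u, g (3 :: u) = i :: u := by
  have hT : ∀ (a : ZMod 3), ∃ g ∈ G j, ∀ u, g (3 :: u) = r true a 3 :: u := by
    intro a
    obtain ⟨v, hv⟩ := exists_ep j a
    refine ⟨actE j (true, v), actE_mem _ _, fun u => ?_⟩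
    rw [actE_cons, if_neg (show ¬ (3 : X) = pt true by decide)]
    rw [rp, hv]
  have hF : ∀ (a : ZMod 3), ∃ g ∈ G j, ∀ u, g (2 :: u) = r false a 2 :: u := by
    intro a
    obtain ⟨v, hv⟩ := exists_ep j a
    refine ⟨actE j (false, v), actE_mem _ _, fun u => ?_⟩
    rw [actE_cons, if_neg (show ¬ (2 : X) = pt false by decide)]
    rw [rp, hv]
  have h2 : ∃ g ∈ G j, ∀ u, g (3 :: u) = 2 :: u := by
    obtain ⟨g, hg, h⟩ := hT 2
    exact ⟨g, hg, fun u => by rw [h]; congr 1⟩
  obtain ⟨g2, hg2, h2⟩ := h2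
  fin_cases i
  · obtain ⟨g, hg, h⟩ := hF 1
    exact ⟨g * g2, (G j).mul_mem hg hg2, fun u => by rw [Perm.mul_apply, h2, h]; congr 1⟩
  · obtain ⟨g, hg, h⟩ := hF 2
    exact ⟨g * g2, (G j).mul_mem hg hg2, fun u => by rw [Perm.mul_apply, h2, h]; congr 1⟩
  · exact ⟨g2, hg2, h2⟩
  · exact ⟨1, (G j).one_mem, fun u => rfl⟩
  · obtain ⟨g, hg, h⟩ := hT 1
    exact ⟨g, hg, fun u => by rw [h]; congr 1⟩

/-- Every element of the next group is a section at the vertex `3` of an element fixing it. -/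
lemma fractal (j : Fin 4) (h : Perm (List X)) (hh : h ∈ G (j + 1)) :
    ∃ g ∈ G j, ∀ u, g (3 :: u) = 3 :: h u := by
  obtain ⟨w, rfl⟩ := hh
  induction w with
  | nil => exact ⟨1, (G j).one_mem, fun u => rfl⟩
  | cons s w ih =>
    obtain ⟨g, hg, hgu⟩ := ih
    obtain ⟨t, v⟩ := s
    cases t with
    | false =>
      refine ⟨actE j (false, v) * g, (G j).mul_mem (actE_mem _ _) hg, fun u => ?_⟩
      rw [Perm.mul_apply, hgu, actE_cons, if_pos (show (3 : X) = pt false by decide), eval_cons]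
      have : rp j (false, v) 3 = 3 := r_pt false _
      rw [this]; rfl
    | true =>
      obtain ⟨k, hk, hku⟩ := trans j 1
      refine ⟨k⁻¹ * actE j (true, v) * k * g, (G j).mul_mem ((G j).mul_mem ((G j).mul_mem
        ((G j).inv_mem hk) (actE_mem _ _)) hk) hg, fun u => ?_⟩
      rw [Perm.mul_apply, Perm.mul_apply, Perm.mul_apply, hgu, hku, actE_cons,
        if_pos (show (1 : X) = pt true by decide), eval_cons]
      have : rp j (true, v) 1 = 1 := r_pt true _
      rw [this, Perm.inv_eq_iff_eq, hku]; rfl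

/-- Elements which, put below the vertex `3`, belong to `G j`. -/
def N (j : Fin 4) : Subgroup (Perm (List X)) := (G j).comap (atH 3)

lemma mem_N {j : Fin 4} {k : Perm (List X)} : k ∈ N j ↔ atH 3 k ∈ G j := Iff.rfl

lemma N_le (j : Fin 4) : N j ≤ G (j + 1) := by
  intro k hk
  obtain ⟨w, hw⟩ := mem_N.1 hk
  refine ⟨sec j w 3, ?_⟩
  ext1 u
  have h1 := eval_apply_cons j w 3 u
  rw [hw, atH_same] at h1
  exact (List.cons.inj h1).2.symm

lemma N_conj {j : Fin 4} {h k : Perm (List X)} (hh : h ∈ G (j + 1)) (hk : k ∈ N j) :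
    h * k * h⁻¹ ∈ N j := by
  obtain ⟨g, hg, hgu⟩ := fractal j h hh
  rw [mem_N, ← conj_at (even_apply_nil (G_le j hg)) hgu k]
  exact (G j).mul_mem ((G j).mul_mem hg hk) ((G j).inv_mem hg)

lemma at_mem {j : Fin 4} {k : Perm (List X)} (hk : k ∈ N j) (i : X) : atH i k ∈ G j := by
  obtain ⟨g, hg, hgu⟩ := trans j i
  have := conj_at (h := 1) (even_apply_nil (G_le j hg)) hgu k
  simp only [one_mul, inv_one, mul_one] at this
  rw [← this]
  exact (G j).mul_mem ((G j).mul_mem hg hk) ((G j).inv_mem hg)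

lemma act_mem_N (j : Fin 4) (v : V) (hv : ep j v = 0) : actE (j + 1) (false, v) ∈ N j := by
  have h1 : atH 3 (actE (j + 1) (false, v)) = actE j (false, v) := by
    ext1 u
    cases u with
    | nil => rw [atH_nil, actE_nil]
    | cons i u =>
      rw [atH_cons, actE_cons, rp_of_ep' j (false, v) hv]
      rfl
  rw [mem_N, h1]
  exact actE_mem _ _

lemma roots_N (j : Fin 4) : alternatingGroup X ≤ roots (N j) := by
  obtain ⟨v, hv, hv1⟩ := exists_ina j
  have h0 : cyc false ∈ roots (N j) := by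
    have h1 := act_mem_N j v hv
    rw [actE_eq_wr] at h1
    have h2 : rp (j + 1) (false, v) = cyc false := by rw [rp, hv1, r_one]
    rw [h2] at h1
    exact ⟨_, h1⟩
  refine gen5 _ h0 ?_
  set τ : Perm X := finRotate 5 ^ 2 with hτ
  have hτ1 : τ ∈ alternatingGroup X := by
    rw [Perm.mem_alternatingGroup, hτ]; decide
  obtain ⟨f, hf⟩ := roots_G (j + 1) hτ1
  obtain ⟨g, hg⟩ := h0
  have h3 := N_conj hf hg
  rw [wr_mul, wr_inv, wr_mul] at h3
  have h4 : τ * cyc false * τ⁻¹ = cyc true := by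
    rw [hτ]; decide
  rw [h4] at h3
  exact ⟨_, h3⟩

lemma commutator_N (j : Fin 4) (i : X) : ⁅N (j + 1), N (j + 1)⁆ ≤ (N j).comap (atH i) := by
  rw [Subgroup.commutator_le]
  intro k hk l hl
  rw [Subgroup.mem_comap]
  set τ : Perm X := finRotate 5 ^ 2 with hτ
  have hτ1 : τ ∈ alternatingGroup X := by
    rw [Perm.mem_alternatingGroup, hτ]; decide
  obtain ⟨f, hf⟩ := roots_N j hτ1
  have hτi : τ i ≠ i := by
    rw [hτ]; revert i; decide
  set h := wr τ f with hh
  have hk' : atH i k⁻¹ ∈ G (j + 1) := at_mem ((N (j + 1)).inv_mem hk) i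
  have hl' : atH i l ∈ G (j + 1) := at_mem hl i
  have hc : h * (atH i k⁻¹ * h⁻¹ * (atH i k⁻¹)⁻¹) ∈ N j :=
    (N j).mul_mem hf (N_conj hk' ((N j).inv_mem hf))
  set c := h * (atH i k⁻¹ * h⁻¹ * (atH i k⁻¹)⁻¹) with hcdef
  have hd : c * (atH i l * c⁻¹ * (atH i l)⁻¹) ∈ N j :=
    (N j).mul_mem hc (N_conj hl' ((N j).inv_mem hc))
  have e1 : h * atH i k⁻¹ * h⁻¹ = atH (τ i) (f i * k⁻¹ * (f i)⁻¹) :=
    conj_at (wr_nil τ f) (fun u => wr_cons τ f i u) _
  set A := atH (τ i) (f i * k⁻¹ * (f i)⁻¹) with hA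
  have e2 : c = A * atH i k := by
    rw [hcdef, ← e1, map_inv]; group
  have e3 : ∀ m, A * atH i m = atH i m * A := fun m => atH_comm hτi _ _
  have e4 : c * (atH i l * c⁻¹ * (atH i l)⁻¹) = atH i ⁅k, l⁆ := by
    rw [e2, commutatorElement_def]
    have e5 : A * atH i (k * l * k⁻¹) = atH i (k * l * k⁻¹) * A := e3 _
    rw [map_mul, map_mul, map_inv] at e5
    rw [map_mul, map_mul, map_mul, map_inv, map_inv]
    calc A * atH i k * (atH i l * (A * atH i k)⁻¹ * (atH i l)⁻¹)
        = A * (atH i k * atH i l * (atH i k)⁻¹) * A⁻¹ * (atH i l)⁻¹ := by group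
      _ = (atH i k * atH i l * (atH i k)⁻¹) * A * A⁻¹ * (atH i l)⁻¹ := by rw [e5]
      _ = _ := by group
  rw [← e4]
  exact hd

/-- `N j` is everything up to any level. -/
lemma full_N (n : ℕ) : ∀ j, Full (N j) n := by
  induction n with
  | zero =>
    intro j w hw
    refine ⟨1, Subgroup.one_mem _, fun u hu => ?_⟩
    have : u = [] := List.eq_nil_of_length_eq_zero (by omega)
    subst this
    rw [even_apply_nil hw]; rfl
  | succ n ih =>
    intro j w hw
    obtain ⟨σ, f, hσ, hf, rfl⟩ := exists_wr hw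
    obtain ⟨f0, hf0⟩ := roots_N j (Perm.mem_alternatingGroup.2 hσ)
    have hN : Full ⁅N (j + 1), N (j + 1)⁆ n := (ih (j + 1)).commutator (full_commutator n)
    have hf0e : ∀ i, f0 i ∈ evenAut := by
      have h1 : wr σ f0 ∈ evenAut := G_le _ (N_le j hf0)
      obtain ⟨σ', f', _, hf', he⟩ := exists_wr h1
      intro i
      have : f0 i = f' i := by
        ext1 u
        have h2 := congrArg (fun g : Perm (List X) => g (i :: u)) he
        simp only [wr_cons] at h2
        exact (List.cons.inj h2).2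
      rw [this]; exact hf' i
    choose c hc hcf using fun i => hN ((f0 i)⁻¹ * f i)
      (evenAut.mul_mem (evenAut.inv_mem (hf0e i)) (hf i))
    refine ⟨wr σ f0 * wr 1 c, ?_, ?_⟩
    · refine Subgroup.mul_mem _ hf0 ?_
      rw [wr1_eq]
      have h : ∀ i, atH i (c i) ∈ N j := fun i => commutator_N j i (hc i)
      exact Subgroup.mul_mem _ (Subgroup.mul_mem _ (Subgroup.mul_mem _ (Subgroup.mul_mem _
        (h 0) (h 1)) (h 2)) (h 3)) (h 4)
    · intro u hu
      cases u with
      | nil => rfl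
      | cons i u =>
        rw [Perm.mul_apply, wr_cons, wr_cons, wr_cons, hcf i u (by simpa using hu)]
        simp

theorem full_G (j : Fin 4) (n : ℕ) : Full (G j) n := by
  intro w hw
  obtain ⟨a, ha, h⟩ := full_N n (j + 3) w hw
  refine ⟨a, ?_, h⟩
  have := N_le _ ha
  have h4 : ∀ j : Fin 4, j + 3 + 1 = j := by decide
  rwa [h4] at this

end Pool.Agent.Q31.DS
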