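import Pool.Agent.Q31.DS.Zeta
import Pool.Agent.Q31.DS.Defs

/-!
# Subexponential growth with respect to any finite generating set
-/

namespace Pool.Agent.Q31.DS

open Equiv Filter Topology

lemma tendsto_of_bound (a : ℕ → ℕ) (ha : ∀ r, 1 ≤ a r)
    (h : ∀ ε : ℝ, 0 < ε → ∃ C : ℝ, 0 < C ∧ ∀ r : ℕ, (a r : ℝ) ≤ C * Real.exp (ε * r)) :
    Tendsto (fun r : ℕ => (a r : ℝ) ^ (1 / (r : ℝ))) atTop (𝓝 1) := by
  have h0 : Tendsto (fun r : ℕ => Real.log (a r) * (1 / (r : ℝ))) atTop (𝓝 0) := by
    rw [Metric.tendsto_atTop]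
    intro ε hε
    obtain ⟨C, hC, hb⟩ := h (ε / 2) (by positivity)
    obtain ⟨n, hn⟩ := exists_nat_gt (2 * |Real.log C| / ε)
    refine ⟨n + 1, fun r hr => ?_⟩
    have hr0 : (0 : ℝ) < r := by
      have : 0 < r := by omega
      exact_mod_cast this
    have h1 : (0 : ℝ) ≤ Real.log (a r) := Real.log_nonneg (by exact_mod_cast ha r)
    have h2 : Real.log (a r) ≤ Real.log C + ε / 2 * r := by
      have h3 : (0 : ℝ) < a r := by
        have := ha r
        exact_mod_cast (by omega : 0 < a r)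
      have h4 := Real.log_le_log h3 (hb r)
      rwa [Real.log_mul hC.ne' (Real.exp_pos _).ne', Real.log_exp] at h4
    have h5 : 2 * |Real.log C| < ε * r := by
      have h6 : (n : ℝ) ≤ r := by
        have : n ≤ r := by omega
        exact_mod_cast this
      rw [div_lt_iff₀ hε] at hn
      nlinarith
    rw [Real.dist_eq, sub_zero, abs_of_nonneg (by positivity), mul_one_div, div_lt_iff₀ hr0]
    have h7 := le_abs_self (Real.log C)
    linarith
  have h1 := (Real.continuous_exp.tendsto 0).comp h0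
  rw [Real.exp_zero] at h1
  refine h1.congr fun r => ?_
  have h3 : (0 : ℝ) < a r := by
    have := ha r
    exact_mod_cast (by omega : 0 < a r)
  rw [Function.comp_apply, Real.rpow_def_of_pos h3]

lemma exists_bound (j : Fin 4) (S : Finset (Perm (List X)))
    (hS : ∀ a ∈ S, a ∈ G j) : ∃ M : ℕ, ∀ a, (a ∈ S ∨ a⁻¹ ∈ S) → a ∈ G j ∧ L j a ≤ M := by
  refine ⟨∑ a ∈ S, (L j a + L j a⁻¹), fun a ha => ?_⟩
  rcases ha with ha | ha
  · refine ⟨hS a ha, ?_⟩
    have := Finset.single_le_sum (f := fun a => L j a + L j a⁻¹) (fun i _ => Nat.zero_le _) ha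
    omega
  · refine ⟨?_, ?_⟩
    · have := (G j).inv_mem (hS _ ha)
      rwa [inv_inv] at this
    · have := Finset.single_le_sum (f := fun a => L j a + L j a⁻¹) (fun i _ => Nat.zero_le _) ha
      simp only [inv_inv] at this
      omega

lemma list_bound (j : Fin 4) (M : ℕ) (l : List (Perm (List X)))
    (hl : ∀ a ∈ l, a ∈ G j ∧ L j a ≤ M) : l.prod ∈ G j ∧ L j l.prod ≤ M * l.length := by
  induction l with
  | nil => exact ⟨(G j).one_mem, by simp [L_one]⟩
  | cons a l ih =>
    obtain ⟨h1, h2⟩ := ih fun b hb => hl b (List.mem_cons_of_mem _ hb)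
    obtain ⟨h3, h4⟩ := hl a (List.mem_cons_self)
    rw [List.prod_cons, List.length_cons]
    refine ⟨(G j).mul_mem h3 h1, ?_⟩
    have := L_mul_le h3 h1
    rw [mul_add, mul_one]
    omega

/-- Subexponential growth of `G j`. -/
theorem growth_G (j : Fin 4) (S : Finset (Perm (List X)))
    (hS : Subgroup.closure (S : Set (Perm (List X))) = G j) :
    Tendsto (fun r : ℕ => (growth S r : ℝ) ^ (1 / (r : ℝ))) atTop (𝓝 1) := by
  have hS' : ∀ a ∈ S, a ∈ G j := fun a ha => by
    rw [← hS]; exact Subgroup.subset_closure ha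
  obtain ⟨M, hM⟩ := exists_bound j S hS'
  have hball : ∀ r, ball S r ⊆ {g : Perm (List X) | g ∈ G j ∧ L j g ≤ M * r} := by
    rintro r _ ⟨l, hl, hl', rfl⟩
    obtain ⟨h1, h2⟩ := list_bound j M l fun a ha => hM a (hl' a ha)
    exact ⟨h1, h2.trans (Nat.mul_le_mul_left M hl)⟩
  have hfin : ∀ r, (ball S r).Finite := fun r => by
    obtain ⟨C, _, h⟩ := count j 1 one_pos
    exact (h (M * r)).1.subset (hball r)
  apply tendsto_of_bound
  · intro r
    rw [growth, Nat.one_le_iff_ne_zero]
    intro h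
    rw [Set.ncard_eq_zero (hfin r)] at h
    have : (1 : Perm (List X)) ∈ ball S r := ⟨[], by simp, by simp, rfl⟩
    rw [h] at this
    exact this
  · intro ε hε
    obtain ⟨C, hC, h⟩ := count j (ε / (M + 1)) (by positivity)
    refine ⟨C, hC, fun r => ?_⟩
    obtain ⟨h1, h2⟩ := h (M * r)
    calc (growth S r : ℝ) ≤ (({g : Perm (List X) | g ∈ G j ∧ L j g ≤ M * r}).ncard : ℝ) := by
          exact_mod_cast Set.ncard_le_ncard (hball r) h1
      _ ≤ C * Real.exp (ε / (M + 1) * ((M * r : ℕ) : ℝ)) := h2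
      _ ≤ C * Real.exp (ε * r) := by
          apply mul_le_mul_of_nonneg_left _ hC.le
          apply Real.exp_le_exp.2
          push_cast
          have h3 : (0 : ℝ) ≤ (M : ℝ) := Nat.cast_nonneg _
          have h4 : (0 : ℝ) ≤ (r : ℝ) := Nat.cast_nonneg _
          have h5 : ε / (M + 1) * (M * r) = (ε * r) * (M / (M + 1)) := by field_simp
          rw [h5]
          have h6 : (M : ℝ) / (M + 1) ≤ 1 := by
            rw [div_le_one (by positivity)]; linarith
          exact mul_le_of_le_one_right (by positivity) h6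

lemma G_fg (j : Fin 4) : (G j).FG := by
  classical
  refine ⟨(Finset.univ : Finset Ltr).image (actE j), ?_⟩
  apply le_antisymm
  · rw [Subgroup.closure_le]
    intro g hg
    simp only [Finset.coe_image, Finset.coe_univ, Set.image_univ] at hg
    obtain ⟨s, rfl⟩ := hg
    exact actE_mem j s
  · rintro _ ⟨w, rfl⟩
    induction w with
    | nil => exact Subgroup.one_mem _
    | cons s w ih =>
      rw [eval_cons]
      refine Subgroup.mul_mem _ (Subgroup.subset_closure ?_) ih
      simp

end Pool.Agent.Q31.DS
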