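import Pool.Agent.Q31.DS.Defs
import Pool.Agent.Q31.DS.Basic

/-!
# Even tree automorphisms: wreath recursion, approximation on levels, perfectness
-/

namespace Pool.Agent.Q31.DS

open Equiv
open scoped commutatorElement

/-- The permutation with given action on the first level and given sections. -/
def wr (σ : Perm X) (f : X → Perm (List X)) : Perm (List X) where
  toFun u := match u with
    | [] => []
    | i :: u => σ i :: f i u
  invFun u := match u with
    | [] => []
    | i :: u => σ⁻¹ i :: (f (σ⁻¹ i))⁻¹ u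
  left_inv u := by
    cases u with
    | nil => rfl
    | cons i u => simp
  right_inv u := by
    cases u with
    | nil => rfl
    | cons i u => simp

@[simp] lemma wr_nil (σ : Perm X) (f : X → Perm (List X)) : wr σ f [] = [] := rfl

@[simp] lemma wr_cons (σ : Perm X) (f : X → Perm (List X)) (i : X) (u : List X) :
    wr σ f (i :: u) = σ i :: f i u := rfl

lemma wr_mul (σ τ : Perm X) (f g : X → Perm (List X)) :
    wr σ f * wr τ g = wr (σ * τ) (fun i => f (τ i) * g i) := by
  ext1 u
  cases u <;> rfl

lemma wr_one : wr 1 1 = 1 := by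
  ext1 u
  cases u <;> rfl

lemma wr_inv (σ : Perm X) (f : X → Perm (List X)) :
    (wr σ f)⁻¹ = wr σ⁻¹ (fun i => (f (σ⁻¹ i))⁻¹) := by
  rw [inv_eq_iff_mul_eq_one, wr_mul, ← wr_one]
  congr 1
  · simp
  · ext1 i
    simp

/-- Elements fixing the first level, as a product. -/
def wr1 : (X → Perm (List X)) →* Perm (List X) where
  toFun f := wr 1 f
  map_one' := wr_one
  map_mul' f g := by rw [wr_mul]; simp only [mul_one]; rfl

/-- Elements acting only below the vertex `i`. -/
def atH (i : X) : Perm (List X) →* Perm (List X) :=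
  wr1.comp (MonoidHom.mulSingle (fun _ : X => Perm (List X)) i)

/-- Rooted permutations. -/
def rtH : Perm X →* Perm (List X) where
  toFun σ := wr σ 1
  map_one' := wr_one
  map_mul' σ τ := by rw [wr_mul]; congr 1

@[simp] lemma atH_nil (i : X) (k : Perm (List X)) : atH i k [] = [] := rfl

lemma atH_cons (i m : X) (k : Perm (List X)) (u : List X) :
    atH i k (m :: u) = m :: (if m = i then k u else u) := by
  change wr 1 (Pi.mulSingle i k) (m :: u) = _
  rw [wr_cons]
  by_cases h : m = i
  · subst h; simp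
  · simp [h]

@[simp] lemma atH_same (i : X) (k : Perm (List X)) (u : List X) :
    atH i k (i :: u) = i :: k u := by
  rw [atH_cons, if_pos rfl]

lemma atH_ne {i m : X} (h : m ≠ i) (k : Perm (List X)) (u : List X) :
    atH i k (m :: u) = m :: u := by
  rw [atH_cons, if_neg h]

lemma atH_comm {i m : X} (h : i ≠ m) (k l : Perm (List X)) :
    Commute (atH i k) (atH m l) := by
  have h1 : Commute (Pi.mulSingle (M := fun _ : X => Perm (List X)) i k)
      (Pi.mulSingle (M := fun _ : X => Perm (List X)) m l) :=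
    Pi.mulSingle_commute (f := fun _ : X => Perm (List X)) h k l
  exact h1.map wr1

lemma wr1_eq (c : X → Perm (List X)) :
    wr 1 c = atH 0 (c 0) * atH 1 (c 1) * atH 2 (c 2) * atH 3 (c 3) * atH 4 (c 4) := by
  ext1 u
  cases u with
  | nil => rfl
  | cons i u =>
    fin_cases i <;> simp [Perm.mul_apply, atH_cons]

lemma wr_eq_mul (σ : Perm X) (f : X → Perm (List X)) : wr σ f = rtH σ * wr 1 f := by
  change wr σ f = wr σ 1 * wr 1 f
  rw [wr_mul]
  simp

lemma wr_mem {σ : Perm X} {f : X → Perm (List X)} (hσ : Perm.sign σ = 1)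
    (hf : ∀ i, f i ∈ evenAut) : wr σ f ∈ evenAut := by
  choose τ h1 h2 h3 using hf
  refine ⟨fun u => match u with
    | [] => σ
    | i :: u => τ i u, ?_, rfl, ?_⟩
  · intro u
    cases u with
    | nil => exact hσ
    | cons i u => exact h1 i u
  · intro u i
    cases u with
    | nil =>
      change σ i :: f i [] = [] ++ [σ i]
      rw [h2]; rfl
    | cons m u =>
      change σ m :: f m (u ++ [i]) = (σ m :: f m u) ++ [τ m u i]
      rw [h3]; rfl

lemma even_apply_nil {g : Perm (List X)} (hg : g ∈ evenAut) : g [] = [] := by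
  obtain ⟨σ, _, h, _⟩ := hg
  exact h

lemma length_even {g : Perm (List X)} (hg : g ∈ evenAut) (u : List X) :
    (g u).length = u.length := by
  obtain ⟨σ, _, h, h'⟩ := hg
  induction u using List.reverseRecOn with
  | nil => rw [h]
  | append_singleton u i ih => rw [h', List.length_append, List.length_append, ih]; rfl

lemma front {g : Perm (List X)} (σ : List X → Perm X) (h : g [] = [])
    (h' : ∀ u i, g (u ++ [i]) = g u ++ [σ u i]) (i : X) (u : List X) :
    g (i :: u) = σ [] i :: (g (i :: u)).tail := by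
  induction u using List.reverseRecOn with
  | nil =>
    have := h' [] i
    rw [h] at this
    simp only [List.nil_append] at this
    rw [this]; rfl
  | append_singleton u m ih =>
    have := h' (i :: u) m
    rw [List.cons_append] at this
    rw [this, ih]
    rfl

lemma exists_wr {g : Perm (List X)} (hg : g ∈ evenAut) :
    ∃ σ : Perm X, ∃ f : X → Perm (List X), Perm.sign σ = 1 ∧ (∀ i, f i ∈ evenAut) ∧
      g = wr σ f := by
  have hg2 := hg
  obtain ⟨σ, hσ, h, h'⟩ := hg
  obtain ⟨τ, hτ, k, k'⟩ := evenAut.inv_mem hg2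
  have hf := front σ h h'
  have kf := front τ k k'
  have e1 : ∀ i u, g⁻¹ (σ [] i :: u) = i :: (g⁻¹ (σ [] i :: u)).tail := by
    intro i u
    have h1 := kf (σ [] i) u
    have h2 : τ [] (σ [] i) = i := by
      have h5 : g⁻¹ (g (i :: [])) = i :: [] := by simp
      rw [hf i []] at h5
      rw [kf] at h5
      exact (List.cons.inj h5).1
    rwa [h2] at h1
  let f : X → Perm (List X) := fun i =>
    { toFun := fun u => (g (i :: u)).tail
      invFun := fun u => (g⁻¹ (σ [] i :: u)).tail
      left_inv := fun u => by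
        change (g⁻¹ (σ [] i :: (g (i :: u)).tail)).tail = u
        rw [← hf i u]; simp
      right_inv := fun u => by
        change (g (i :: (g⁻¹ (σ [] i :: u)).tail)).tail = u
        rw [← e1 i u]; simp }
  have hfi : ∀ i u, f i u = (g (i :: u)).tail := fun i u => rfl
  refine ⟨σ [], f, hσ [], fun i => ?_, ?_⟩
  · refine ⟨fun u => σ (i :: u), fun u => hσ _, ?_, fun u m => ?_⟩
    · rw [hfi]
      have := h' [] i
      rw [h] at this
      simp only [List.nil_append] at this
      rw [this]; rfl
    · rw [hfi, hfi]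
      have := h' (i :: u) m
      rw [List.cons_append] at this
      rw [this, hf i u]; rfl
  · ext1 u
    cases u with
    | nil => rw [h]; rfl
    | cons i u => rw [wr_cons, hfi, ← hf]

/-- Agreement on all vertices of level at most `n`. -/
def Ag (n : ℕ) (g h : Perm (List X)) : Prop := ∀ u : List X, u.length ≤ n → g u = h u

lemma Ag.mul {n : ℕ} {g g' h h' : Perm (List X)} (H : Ag n g g') (H' : Ag n h h')
    (hh : h' ∈ evenAut) : Ag n (g * h) (g' * h') := by
  intro u hu
  rw [Perm.mul_apply, Perm.mul_apply, H' u hu]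
  exact H _ (by rw [length_even hh]; exact hu)

lemma Ag.inv {n : ℕ} {g g' : Perm (List X)} (H : Ag n g g') (hg' : g' ∈ evenAut) :
    Ag n g⁻¹ g'⁻¹ := by
  intro u hu
  rw [Perm.inv_eq_iff_eq, H]
  · simp
  · rw [length_even (evenAut.inv_mem hg')]; exact hu

/-- `A` induces everything that the group of even automorphisms induces up to level `n`. -/
def Full (A : Subgroup (Perm (List X))) (n : ℕ) : Prop :=
  ∀ w ∈ evenAut, ∃ a ∈ A, Ag n a w

lemma Full.commutator {A : Subgroup (Perm (List X))} {n : ℕ}
    (hA : Full A n) (hE : Full ⁅evenAut, evenAut⁆ n) : Full ⁅A, A⁆ n := by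
  have key : ∀ c ∈ ⁅evenAut, evenAut⁆, c ∈ evenAut ∧ ∃ a ∈ ⁅A, A⁆, Ag n a c := by
    intro c hc
    rw [Subgroup.commutator_def] at hc
    induction hc using Subgroup.closure_induction with
    | mem c hc =>
      obtain ⟨x, hx, y, hy, rfl⟩ := hc
      obtain ⟨a, ha, hax⟩ := hA x hx
      obtain ⟨b, hb, hby⟩ := hA y hy
      refine ⟨?_, ⁅a, b⁆, Subgroup.commutator_mem_commutator ha hb, ?_⟩
      · rw [commutatorElement_def]
        exact evenAut.mul_mem (evenAut.mul_mem (evenAut.mul_mem hx hy) (evenAut.inv_mem hx))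
          (evenAut.inv_mem hy)
      · rw [commutatorElement_def, commutatorElement_def]
        exact (((hax.mul hby hy).mul (hax.inv hx) (evenAut.inv_mem hx))).mul (hby.inv hy)
          (evenAut.inv_mem hy)
    | one => exact ⟨evenAut.one_mem, 1, Subgroup.one_mem _, fun _ _ => rfl⟩
    | mul x y _ _ hx hy =>
      obtain ⟨hx1, a, ha, hax⟩ := hx
      obtain ⟨hy1, b, hb, hby⟩ := hy
      exact ⟨evenAut.mul_mem hx1 hy1, a * b, Subgroup.mul_mem _ ha hb, hax.mul hby hy1⟩
    | inv x _ hx =>
      obtain ⟨hx1, a, ha, hax⟩ := hx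
      exact ⟨evenAut.inv_mem hx1, a⁻¹, Subgroup.inv_mem _ ha, hax.inv hx1⟩
  intro w hw
  obtain ⟨c, hc, hcw⟩ := hE w hw
  obtain ⟨_, a, ha, hac⟩ := key c hc
  exact ⟨a, ha, fun u hu => (hac u hu).trans (hcw u hu)⟩

lemma atH_mem {i : X} {k : Perm (List X)} (hk : k ∈ evenAut) : atH i k ∈ evenAut := by
  change wr 1 (Pi.mulSingle i k) ∈ evenAut
  refine wr_mem (map_one _) fun m => ?_
  by_cases h : m = i
  · subst h; simpa using hk
  · rw [Pi.mulSingle_eq_of_ne h]; exact evenAut.one_mem

lemma rtH_mem {σ : Perm X} (hσ : Perm.sign σ = 1) : rtH σ ∈ evenAut :=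
  wr_mem hσ fun _ => evenAut.one_mem

lemma commutator_atH (i : X) : ⁅evenAut, evenAut⁆ ≤ (⁅evenAut, evenAut⁆).comap (atH i) := by
  rw [Subgroup.commutator_le]
  intro a ha b hb
  rw [Subgroup.mem_comap, map_commutatorElement]
  exact Subgroup.commutator_mem_commutator (atH_mem ha) (atH_mem hb)

lemma commutator_rtH {σ : Perm X} (hσ : Perm.sign σ = 1) : rtH σ ∈ ⁅evenAut, evenAut⁆ := by
  have h1 : alternatingGroup X ≤ (⁅evenAut, evenAut⁆).comap rtH := by
    rw [← commutator_alternatingGroup_eq_self (α := X) (by simp)]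
    rw [Subgroup.commutator_le]
    intro a ha b hb
    rw [Subgroup.mem_comap, map_commutatorElement]
    exact Subgroup.commutator_mem_commutator (rtH_mem (Perm.mem_alternatingGroup.1 ha))
      (rtH_mem (Perm.mem_alternatingGroup.1 hb))
  exact h1 (Perm.mem_alternatingGroup.2 hσ)

/-- The group of even automorphisms is perfect on every level. -/
lemma full_commutator (n : ℕ) : Full ⁅evenAut, evenAut⁆ n := by
  induction n with
  | zero =>
    intro w hw
    refine ⟨1, Subgroup.one_mem _, fun u hu => ?_⟩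
    have : u = [] := List.eq_nil_of_length_eq_zero (by omega)
    subst this
    rw [even_apply_nil hw]; rfl
  | succ n ih =>
    intro w hw
    obtain ⟨σ, f, hσ, hf, rfl⟩ := exists_wr hw
    choose c hc hcf using fun i => ih (f i) (hf i)
    refine ⟨rtH σ * wr 1 c, ?_, ?_⟩
    · refine Subgroup.mul_mem _ (commutator_rtH hσ) ?_
      rw [wr1_eq]
      have h : ∀ i, atH i (c i) ∈ ⁅evenAut, evenAut⁆ := fun i => commutator_atH i (hc i)
      exact Subgroup.mul_mem _ (Subgroup.mul_mem _ (Subgroup.mul_mem _ (Subgroup.mul_mem _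
        (h 0) (h 1)) (h 2)) (h 3)) (h 4)
    · rw [← wr_eq_mul]
      intro u hu
      cases u with
      | nil => rfl
      | cons i u =>
        rw [wr_cons, wr_cons, hcf i u (by simpa using hu)]

end Pool.Agent.Q31.DS
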