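import Pool.Agent.Q31.DS.Contract

/-!
# Subexponential growth by a zeta function argument
-/

namespace Pool.Agent.Q31.DS

open Equiv Filter Topology
open scoped ENNReal

lemma tsum_pi_pow {α : Type*} (F : α → ℝ≥0∞) (n : ℕ) :
    ∑' f : Fin n → α, ∏ i, F (f i) = (∑' a, F a) ^ n := by
  induction n with
  | zero =>
    rw [tsum_eq_single (default : Fin 0 → α)]
    · simp
    · intro b hb
      exact absurd (Subsingleton.elim b default) hb
  | succ n ih =>
    rw [← (Fin.consEquiv (fun _ => α)).tsum_eq, ENNReal.tsum_prod']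
    have : ∀ (a : α) (f : Fin n → α),
        ∏ i, F ((Fin.consEquiv (fun _ : Fin (n + 1) => α)) (a, f) i) = F a * ∏ i, F (f i) := by
      intro a f
      rw [Fin.prod_univ_succ]
      simp [Fin.consEquiv]
    simp only [this]
    simp only [ENNReal.tsum_mul_left]
    rw [ih, ENNReal.tsum_mul_right, pow_succ, mul_comm]

lemma tsum_list {α : Type*} [Fintype α] (c : ℝ≥0∞) (hc : (Fintype.card α : ℝ≥0∞) * c < 1) :
    ∑' l : List α, c ^ l.length ≠ ⊤ := by
  rw [← (List.equivSigmaTuple (α := α)).symm.tsum_eq, ENNReal.tsum_sigma']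
  have h1 : ∀ (n : ℕ) (f : Fin n → α),
      c ^ ((List.equivSigmaTuple (α := α)).symm ⟨n, f⟩).length = c ^ n := by
    intro n f
    simp [List.equivSigmaTuple]
  simp only [h1]
  have h2 : ∀ n : ℕ, ∑' _ : Fin n → α, c ^ n = ((Fintype.card α : ℝ≥0∞) * c) ^ n := by
    intro n
    rw [ENNReal.tsum_const, mul_pow]
    congr 1
    simp [ENat.card_eq_coe_fintype_card]
  simp only [h2]
  rw [ENNReal.tsum_geometric]
  exact ENNReal.inv_ne_top.2 (tsub_pos_iff_lt.2 hc).ne'

/-- The basic exponential. -/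
noncomputable def ex (s : ℝ) (n : ℕ) : ℝ≥0∞ := ENNReal.ofReal (Real.exp (-(s * n)))

/-- The zeta function. -/
noncomputable def Z (j : Fin 4) (s : ℝ) : ℝ≥0∞ := ∑' g : G j, ex s (L j g)

/-- A chosen minimal word. -/
noncomputable def mw (j : Fin 4) (g : G j) : List Ltr := (exists_min g.2).choose

lemma mw_spec (j : Fin 4) (g : G j) :
    NZ (mw j g) ∧ eval j (mw j g) = g ∧ wt j (mw j g) = L j g := (exists_min g.2).choose_spec

lemma mw_inj (j : Fin 4) : Function.Injective (mw j) := by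
  intro g h hgh
  apply Subtype.ext
  rw [← (mw_spec j g).2.1, ← (mw_spec j h).2.1, hgh]

lemma Z_four (j : Fin 4) : Z j 4 ≠ ⊤ := by
  have hc : (Fintype.card Ltr : ℝ≥0∞) * ENNReal.ofReal (Real.exp (-4)) < 1 := by
    have h1 : Real.exp (-4) < 1 / 18 := by
      rw [Real.exp_neg]
      rw [inv_eq_one_div]
      apply one_div_lt_one_div_of_lt (by norm_num)
      have h2 : (2.7 : ℝ) < Real.exp 1 := by
        have := Real.exp_one_gt_d9
        linarith
      have h3 : Real.exp 4 = (Real.exp 1) ^ 4 := by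
        rw [← Real.exp_nat_mul]; norm_num
      rw [h3]
      calc (18 : ℝ) < 2.7 ^ 4 := by norm_num
        _ < (Real.exp 1) ^ 4 := by gcongr
    have h2 : (Fintype.card Ltr : ℝ≥0∞) = ENNReal.ofReal 18 := by
      have : Fintype.card Ltr = 18 := by decide
      rw [this]
      simp
    rw [h2, ← ENNReal.ofReal_mul (by norm_num), ← ENNReal.ofReal_one]
    rw [ENNReal.ofReal_lt_ofReal_iff (by norm_num)]
    linarith
  have h1 := tsum_list (α := Ltr) _ hc
  refine ne_top_of_le_ne_top h1 ?_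
  calc Z j 4 ≤ ∑' g : G j, (ENNReal.ofReal (Real.exp (-4))) ^ (mw j g).length := by
        refine ENNReal.tsum_le_tsum fun g => ?_
        rw [ex, ← ENNReal.ofReal_pow (Real.exp_pos _).le, ← Real.exp_nat_mul]
        apply ENNReal.ofReal_le_ofReal
        apply Real.exp_le_exp.2
        have h2 := le_wt j (mw j g)
        rw [(mw_spec j g).2.2] at h2
        have h3 : ((mw j g).length : ℝ) ≤ (L j g : ℝ) := by exact_mod_cast h2
        linarith
    _ ≤ ∑' w : List Ltr, (ENNReal.ofReal (Real.exp (-4))) ^ w.length :=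
        ENNReal.tsum_comp_le_tsum_of_injective (mw_inj j)
          (fun w : List Ltr => (ENNReal.ofReal (Real.exp (-4))) ^ w.length)

/-- Decomposition of an element. -/
noncomputable def dec (j : Fin 4) (g : G j) : Perm X × (Fin 5 → G (j + 1)) :=
  (rw' j (mw j g), fun i => ⟨eval (j + 1) (sec j (mw j g) i), eval_mem _ _⟩)

lemma dec_inj (j : Fin 4) : Function.Injective (dec j) := by
  intro g h hgh
  apply Subtype.ext
  rw [← (mw_spec j g).2.1, ← (mw_spec j h).2.1]
  simp only [dec, Prod.mk.injEq] at hgh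
  ext1 u
  cases u with
  | nil => rw [eval_apply_nil, eval_apply_nil]
  | cons i u =>
    rw [eval_apply_cons, eval_apply_cons, hgh.1]
    have := congrArg (fun f : Fin 5 → G (j + 1) => ((f i : G (j + 1)) : Perm (List X))) hgh.2
    simp only at this
    rw [this]

lemma Z_step (j : Fin 4) (s : ℝ) (hs : 0 ≤ s) (h : Z (j + 1) s ≠ ⊤) : Z j (9 / 10 * s) ≠ ⊤ := by
  have key : Z j (9 / 10 * s) ≤ ∑' p : Perm X × (Fin 5 → G (j + 1)),
      ENNReal.ofReal (Real.exp (8 * s)) * ∏ i, ex s (L (j + 1) (p.2 i)) := by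
    calc Z j (9 / 10 * s) ≤ ∑' g : G j, ENNReal.ofReal (Real.exp (8 * s)) *
          ∏ i, ex s (L (j + 1) ((dec j g).2 i)) := by
          refine ENNReal.tsum_le_tsum fun g => ?_
          simp only [ex]
          rw [← ENNReal.ofReal_prod_of_nonneg (fun i _ => (Real.exp_pos _).le),
            ← ENNReal.ofReal_mul (Real.exp_pos _).le, ← Real.exp_sum, ← Real.exp_add]
          apply ENNReal.ofReal_le_ofReal
          apply Real.exp_le_exp.2
          obtain ⟨h1, h2, h3⟩ := mw_spec j g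
          have h4 := contraction j g (mw j g) h1 h2 h3
          have h5 : (10 : ℝ) * ∑ i, (L (j + 1) ((dec j g).2 i) : ℝ) ≤ 9 * (L j g : ℝ) + 80 := by
            have : (10 : ℝ) * ∑ i, (L (j + 1) (eval (j + 1) (sec j (mw j g) i)) : ℝ) ≤
                9 * (L j g : ℝ) + 80 := by exact_mod_cast h4
            exact this
          have h6 : ∑ i, -(s * (L (j + 1) ((dec j g).2 i) : ℝ)) =
              -(s * ∑ i, (L (j + 1) ((dec j g).2 i) : ℝ)) := by
            rw [Finset.sum_neg_distrib, Finset.mul_sum]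
          rw [h6]
          nlinarith
      _ ≤ _ := ENNReal.tsum_comp_le_tsum_of_injective (dec_inj j)
          (fun p : Perm X × (Fin 5 → G (j + 1)) =>
            ENNReal.ofReal (Real.exp (8 * s)) * ∏ i, ex s (L (j + 1) (p.2 i)))
  refine ne_top_of_le_ne_top ?_ key
  rw [ENNReal.tsum_prod']
  simp only [ENNReal.tsum_mul_left]
  have h1 := tsum_pi_pow (fun g : G (j + 1) => ex s (L (j + 1) g)) 5
  simp only [h1]
  rw [tsum_fintype, Finset.sum_const, nsmul_eq_mul]
  exact ENNReal.mul_ne_top ENNReal.ofReal_ne_top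
    (ENNReal.mul_ne_top (ENNReal.natCast_ne_top _) (ENNReal.pow_ne_top h))

lemma Z_iter (k : ℕ) : ∀ j : Fin 4, Z j ((9 / 10) ^ k * 4) ≠ ⊤ := by
  induction k with
  | zero => intro j; simpa using Z_four j
  | succ k ih =>
    intro j
    have := Z_step j ((9 / 10) ^ k * 4) (by positivity) (ih (j + 1))
    convert! this using 2
    rw [pow_succ]; ring

theorem Z_ne_top (j : Fin 4) (s : ℝ) (hs : 0 < s) : Z j s ≠ ⊤ := by
  obtain ⟨k, hk⟩ := exists_pow_lt_of_lt_one (show (0 : ℝ) < s / 4 by positivity)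
    (show (9 / 10 : ℝ) < 1 by norm_num)
  refine ne_top_of_le_ne_top (Z_iter k j) ?_
  refine ENNReal.tsum_le_tsum fun g => ?_
  apply ENNReal.ofReal_le_ofReal
  apply Real.exp_le_exp.2
  have : (9 / 10 : ℝ) ^ k * 4 ≤ s := by linarith
  have h2 : (0 : ℝ) ≤ (L j g : ℝ) := Nat.cast_nonneg _
  nlinarith

/-- Elements of small norm: there are subexponentially many. -/
theorem count (j : Fin 4) (s : ℝ) (hs : 0 < s) : ∃ C : ℝ, 0 < C ∧ ∀ R : ℕ,
    ({g : Perm (List X) | g ∈ G j ∧ L j g ≤ R}).Finite ∧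
    (({g : Perm (List X) | g ∈ G j ∧ L j g ≤ R}).ncard : ℝ) ≤ C * Real.exp (s * R) := by
  have hZ := Z_ne_top j s hs
  refine ⟨(Z j s).toReal + 1, by positivity, fun R => ?_⟩
  have hε : ex s R ≠ 0 := by
    rw [ex]
    exact (ENNReal.ofReal_pos.2 (Real.exp_pos _)).ne'
  obtain ⟨hf, hcard⟩ := ENNReal.finset_card_const_le_le_of_tsum_le hZ (le_refl (Z j s)) hε
  have himg : {g : Perm (List X) | g ∈ G j ∧ L j g ≤ R} ⊆
      (fun g : G j => (g : Perm (List X))) '' {g : G j | ex s R ≤ ex s (L j g)} := by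
    rintro g ⟨hg, hL⟩
    refine ⟨⟨g, hg⟩, ?_, rfl⟩
    apply ENNReal.ofReal_le_ofReal
    apply Real.exp_le_exp.2
    have : (L j g : ℝ) ≤ R := by exact_mod_cast hL
    have := mul_le_mul_of_nonneg_left this hs.le
    simpa using this
  have hfin := hf.image (fun g : G j => (g : Perm (List X)))
  refine ⟨hfin.subset himg, ?_⟩
  have h1 : ({g : Perm (List X) | g ∈ G j ∧ L j g ≤ R}).ncard ≤ hf.toFinset.card := by
    calc _ ≤ ((fun g : G j => (g : Perm (List X))) '' {g : G j | ex s R ≤ ex s (L j g)}).ncard :=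
          Set.ncard_le_ncard himg hfin
      _ ≤ ({g : G j | ex s R ≤ ex s (L j g)}).ncard := Set.ncard_image_le hf
      _ = _ := Set.ncard_eq_toFinset_card _ hf
  have h2 : (hf.toFinset.card : ℝ) ≤ (Z j s).toReal * Real.exp (s * R) := by
    have h3 : Z j s / ex s R ≠ ⊤ := ENNReal.div_ne_top hZ hε
    have h4 := ENNReal.toReal_mono h3 hcard
    rw [ENNReal.toReal_natCast, ENNReal.toReal_div] at h4
    have hex : (ex s R).toReal = (Real.exp (s * R))⁻¹ := by
      rw [ex, ENNReal.toReal_ofReal (Real.exp_pos _).le, Real.exp_neg]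
    rw [hex, div_inv_eq_mul] at h4
    exact h4
  have h5 : (({g : Perm (List X) | g ∈ G j ∧ L j g ≤ R}).ncard : ℝ) ≤ hf.toFinset.card := by
    exact_mod_cast h1
  have h6 := Real.exp_pos (s * R)
  nlinarith

end Pool.Agent.Q31.DS
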